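import Mathlib
import Pool.Agent.H66.FY.Main
import Pool.Graph.R_seed8.TH362.FP.Pos

/-!
# The characteristic polynomial at 5 against the number of integer 5-flows (MP_c8786f_co)

Let `G` be a finite multigraph with `n` vertices and `m` edges and let `χ` be the characteristic
polynomial of its bond matroid.  Then `χ(5)` is the number of nowhere-zero flows of `G` modulo
five, and we show that `G` has at least `1.277^(m - n) χ(5)` nowhere-zero integer 5-flows.  So the
conjecture `π(C) = 5`, which is equivalent to the 5-flow conjecture, is equivalent to its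
exponential strengthening: every bridgeless multigraph with an edge has at least `4 · 1.277^(m - n)`
nowhere-zero integer 5-flows.

Proof.  For a nowhere-zero flow `g` modulo five let `N(g)` be the number of integer flows with
`0 < |f| < 5` congruent to `g`.  The values at a vertex of a cubic graph are `{1, 1, 3}` or
`{1, 2, 2}` up to sign, and the doubling of `g` exchanges the two types.  The permanent inequality
of Schrijver and of Gurvits and Samorodnitsky (proved in the helper files) gives
`N(g)^2 N(2g)^2 ≥ c^n` with `c = 11.59...^(1/5) > 1.277^2`; the case of all multigraphs follows by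
splitting off darts, suppressing vertices of degree two and deleting loops.  The sum over all `g`
gives the claim by the inequality of the arithmetic and the geometric mean.
-/

set_option autoImplicit false

namespace Pool.Agent.Results.MP_c8786f_co.CharPolyAtFive

variable {V E : Type}

/-- The edges with exactly one end in `X`. -/
def boundary [DecidableEq V] [Fintype E] (src dst : E → V) (X : Finset V) : Finset E :=
  Finset.univ.filter (fun e => ¬ (src e ∈ X ↔ dst e ∈ X))

/-- Kirchhoff's law. -/
def IsFlow [DecidableEq V] [Fintype E] (src dst : E → V) (f : E → ℤ) : Prop :=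
  ∀ v : V, ∑ e ∈ Finset.univ.filter (fun e => src e = v), f e
    = ∑ e ∈ Finset.univ.filter (fun e => dst e = v), f e

/-- The number of the integer flows with the absolute values `1, 2, 3, 4`. -/
noncomputable def fiveFlows [DecidableEq V] [Fintype E] (src dst : E → V) : ℕ :=
  Nat.card {f : E → ℤ // IsFlow src dst f ∧ ∀ e, 1 ≤ |f e| ∧ |f e| ≤ 4}

/-- The number of the components of the graph with the vertices `V` and the edges `A`. -/
noncomputable def components (src dst : E → V) (A : Finset E) : ℕ :=
  Nat.card (SimpleGraph.fromRel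
    (fun u v : V => ∃ e ∈ A, src e = u ∧ dst e = v)).ConnectedComponent

/-- The rank of `A` in the cycle matroid of the graph. -/
noncomputable def cycleRank [Fintype V] (src dst : E → V) (A : Finset E) : ℕ :=
  Fintype.card V - components src dst A

/-- The rank of `A` in the bond matroid of the graph (the dual of the cycle matroid). -/
noncomputable def bondRank [Fintype V] [Fintype E] [DecidableEq E] (src dst : E → V)
    (A : Finset E) : ℕ :=
  A.card + cycleRank src dst Aᶜ - cycleRank src dst Finset.univ

/-- The characteristic polynomial of the bond matroid at the integer `x`. -/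
noncomputable def bondCharPoly [Fintype V] [Fintype E] [DecidableEq E] (src dst : E → V)
    (x : ℤ) : ℤ :=
  ∑ A : Finset E, (-1) ^ A.card * x ^ (bondRank src dst Finset.univ - bondRank src dst A)

theorem charPoly_pos [Fintype V] [DecidableEq V] [Fintype E] [DecidableEq E] (src dst : E → V)
    (f : E → ℤ) (h1 : IsFlow src dst f) (h2 : ∀ e, 1 ≤ |f e| ∧ |f e| ≤ 4) (q : ℕ) (hq : 5 ≤ q) :
    0 < bondCharPoly src dst q :=
  Pool.Agent.TH362.FP.chr_pos src dst f h2 h1 q hq

theorem charPoly_five [Fintype V] [DecidableEq V] [Fintype E] [DecidableEq E] (src dst : E → V) :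
    bondCharPoly src dst 5 = ((Pool.Agent.H66.FY.mf src dst).card : ℤ) := by
  have h1 := Pool.Agent.TH362.FP.chr_eq src dst 5
  rw [Pool.Agent.H66.FY.card_mf] at h1
  exact_mod_cast h1

theorem inequality [Fintype V] [DecidableEq V] [Fintype E] [DecidableEq E] (src dst : E → V) :
    (1.277 : ℝ) ^ (Fintype.card E - Fintype.card V) * (bondCharPoly src dst 5 : ℝ) ≤
      (fiveFlows src dst : ℝ) := by
  have h1 := Pool.Agent.H66.FY.part2 src dst
  rw [Pool.Agent.H66.FY.card_mf] at h1
  have h2 : (1.277 : ℝ) = 1277 / 1000 := by norm_num
  rw [h2, charPoly_five]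
  exact_mod_cast h1

theorem result :
    (∀ (V E : Type) [Fintype V] [DecidableEq V] [Fintype E] [DecidableEq E] (src dst : E → V),
      (1.277 : ℝ) ^ (Fintype.card E - Fintype.card V) * (bondCharPoly src dst 5 : ℝ) ≤
        (fiveFlows src dst : ℝ)) ∧
    ((∀ (V E : Type) [Fintype V] [DecidableEq V] [Fintype E] [DecidableEq E] (src dst : E → V),
        (∀ X : Finset V, (boundary src dst X).card ≠ 1) →
        ∀ q : ℕ, 5 ≤ q → bondCharPoly src dst q ≠ 0) ↔
      (∀ (V E : Type) [Fintype V] [DecidableEq V] [Fintype E] [DecidableEq E] (src dst : E → V),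
        (∀ X : Finset V, (boundary src dst X).card ≠ 1) → Nonempty E →
        4 * (1.277 : ℝ) ^ (Fintype.card E - Fintype.card V) ≤ (fiveFlows src dst : ℝ))) := by
  refine ⟨fun V E _ _ _ _ src dst => inequality src dst, ?_, ?_⟩
  · intro h V E _ _ _ _ src dst hb hE
    obtain ⟨e0⟩ := hE
    have h1 := h V E src dst hb 5 le_rfl
    have h2 : 0 < (Pool.Agent.H66.FY.mf src dst).card := by
      rw [Nat.cast_ofNat, charPoly_five] at h1
      rw [Nat.pos_iff_ne_zero]
      exact_mod_cast h1
    have h3 := Pool.Agent.H66.FY.four_le src dst e0 h2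
    have h4 := inequality src dst
    rw [charPoly_five] at h4
    have h5 : (4 : ℝ) ≤ (((Pool.Agent.H66.FY.mf src dst).card : ℤ) : ℝ) := by exact_mod_cast h3
    have h6 : (0 : ℝ) ≤ 1.277 ^ (Fintype.card E - Fintype.card V) := by positivity
    refine le_trans ?_ h4
    rw [mul_comm]
    exact mul_le_mul_of_nonneg_left h5 h6
  · intro h V E _ _ _ _ src dst hb q hq
    have hflow : ∃ f : E → ℤ, IsFlow src dst f ∧ ∀ e, 1 ≤ |f e| ∧ |f e| ≤ 4 := by
      rcases isEmpty_or_nonempty E with hE | hE
      · exact ⟨fun e => hE.elim e, fun v => by simp, fun e => hE.elim e⟩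
      · have h1 := h V E src dst hb hE
        have h2 : (0 : ℝ) < (fiveFlows src dst : ℝ) := lt_of_lt_of_le (by positivity) h1
        have h3 : 0 < fiveFlows src dst := by exact_mod_cast h2
        unfold fiveFlows at h3
        obtain ⟨⟨f, hf⟩⟩ := (Nat.card_pos_iff.1 h3).1
        exact ⟨f, hf⟩
    obtain ⟨f, hf1, hf2⟩ := hflow
    exact (charPoly_pos src dst f hf1 hf2 q hq).ne'

end Pool.Agent.Results.MP_c8786f_co.CharPolyAtFive
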