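import Mathlib
import Pool.Agent.H59.CF.Base
import Pool.Agent.H59.CF.ModInt
import Pool.Agent.H59.CF.Fin
import Pool.Agent.H59.CF.Rat

set_option autoImplicit false

/-!
# Circular flow numbers above five (MP_c8786f_co)

The circular flow number of a graph is the least `r` such that it has a real flow all of whose values
have absolute value in `[1, r - 1]`. Every rational number between 2 and 5 is the circular flow number
of a graph (Pan and Zhu), and the 5-flow conjecture says that no number above 5 is one. We prove that
there are no gaps: the circular flow numbers `≥ 5` form an initial segment of the rational numbers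
`≥ 5`. So the 5-flow conjecture holds if and only if there are rational numbers `s > 5` arbitrarily
close to 5 which are not circular flow numbers.

Proof. Let `s = P / q`. Closed flows are flows modulo `s` with values in `[1, s - 1]`, open flows have
values in `(1, s - 1)`; a graph has the circular flow number `s` if and only if it has closed flows
and no open flow. Suppose that this is never the case, and that some bridgeless graph has no open
flow. Let `G` be one with as few edges as possible, and `e` an edge. As `G` has no closed flow, the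
network `G - e` (with the ends of `e` as terminals) only transmits values in `(-1, 1)` by closed flows,
and by minimality (contract one of two edges which form a cut) it has an open flow of value 0. By
integrality the closed values are in `[-n/q, n/q]` with `n < q`. Let `W` be a network with such
properties with the least `n`; then `n ≥ 1`, and `α = n/q` is a closed value. Let `(m - 1) α < 1 ≤ m α`.
One edge parallel to `m` copies of `W` is a graph with a closed flow, so it has an open one, so `W` has
an open value `> 1 / m`. Put two copies of `W` in parallel, put this in series with [one edge parallel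
to `m - 2` copies of `W`]; this transmits only `±[1 - (m - 2) α, 2 α]`; put two copies of the result in
parallel and in series with `W`. The closed values of this network are in `[-(m α - 1), m α - 1]`
(`5 α < 5 ≤ s` prevents wrapping around), and `m n - q < n`: a contradiction.
-/

namespace Pool.Agent.Results.MP_c8786f_co.CircularFlowNumbers

open Finset

/-- The edges with exactly one end in `X`. -/
def boundary {V E : Type} [DecidableEq V] [Fintype E] (src dst : E → V) (X : Finset V) :
    Finset E :=
  Finset.univ.filter (fun e => ¬ (src e ∈ X ↔ dst e ∈ X))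

/-- No edge cut consists of one edge. -/
def Bridgeless {V E : Type} [DecidableEq V] [Fintype E] (src dst : E → V) : Prop :=
  ∀ X : Finset V, (boundary src dst X).card ≠ 1

/-- Kirchhoff's law. -/
def IsFlow {V E R : Type} [DecidableEq V] [Fintype E] [AddCommMonoid R] (src dst : E → V)
    (f : E → R) : Prop :=
  ∀ v : V, ∑ e ∈ Finset.univ.filter (fun e => src e = v), f e
    = ∑ e ∈ Finset.univ.filter (fun e => dst e = v), f e

/-- The graph has a circular `r`-flow. -/
def CircularFlow {V E : Type} [DecidableEq V] [Fintype E] (r : ℝ) (src dst : E → V) : Prop :=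
  ∃ f : E → ℝ, IsFlow src dst f ∧ ∀ e, 1 ≤ |f e| ∧ |f e| ≤ r - 1

/-- `s` is the circular flow number of some finite graph (loops and parallel edges allowed). -/
def IsFlowNumber (s : ℝ) : Prop :=
  ∃ (V E : Type) (_ : Fintype V) (_ : DecidableEq V) (_ : Fintype E) (src dst : E → V),
    CircularFlow s src dst ∧ ∀ r < s, ¬ CircularFlow r src dst

/-- The number of the components of the graph with the vertices `V` and the edges `A`. -/
noncomputable def components {V E : Type} (src dst : E → V) (A : Finset E) : ℕ :=
  Nat.card (SimpleGraph.fromRel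
    (fun u v : V => ∃ e ∈ A, src e = u ∧ dst e = v)).ConnectedComponent

/-- The rank of `A` in the cycle matroid of the graph. -/
noncomputable def cycleRank {V E : Type} [Fintype V] (src dst : E → V) (A : Finset E) : ℕ :=
  Fintype.card V - components src dst A

/-- The rank of `A` in the bond matroid of the graph (the dual of the cycle matroid). -/
noncomputable def bondRank {V E : Type} [Fintype V] [Fintype E] [DecidableEq E]
    (src dst : E → V) (A : Finset E) : ℕ :=
  A.card + cycleRank src dst Aᶜ - cycleRank src dst Finset.univ

/-- The characteristic polynomial of the bond matroid at the integer `x`. -/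
noncomputable def bondCharPoly {V E : Type} [Fintype V] [Fintype E] [DecidableEq E]
    (src dst : E → V) (x : ℤ) : ℤ :=
  ∑ A : Finset E, (-1) ^ A.card * x ^ (bondRank src dst Finset.univ - bondRank src dst A)

lemma mono {V E : Type} [DecidableEq V] [Fintype E] {r r' : ℝ} (h : r ≤ r') {src dst : E → V}
    (hr : CircularFlow r src dst) : CircularFlow r' src dst := by
  obtain ⟨f, h1, h2⟩ := hr
  exact ⟨f, h1, fun e => ⟨(h2 e).1, (h2 e).2.trans (by linarith)⟩⟩

/-- from graphs with large circular flow numbers to all smaller ones -/
theorem attained (s : ℚ) (hs : 5 ≤ s) (V E : Type) [Fintype V] [DecidableEq V] [Fintype E]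
    (src dst : E → V) (hbr : Bridgeless src dst) (h : ∀ r < (s : ℝ), ¬ CircularFlow r src dst) :
    IsFlowNumber s := by
  by_contra hcon
  have hnum : 0 < s.num := Rat.num_pos.2 (by linarith)
  have hsr : ((s.num.toNat : ℝ) / (s.den : ℝ)) = (s : ℝ) := by
    have h1 : ((s.num.toNat : ℕ) : ℝ) = (s.num : ℝ) := by
      have : ((s.num.toNat : ℕ) : ℤ) = s.num := Int.toNat_of_nonneg hnum.le
      exact_mod_cast this
    rw [h1]
    exact (Rat.cast_def s).symm
  have hs5 : (5 : ℝ) ≤ s := by exact_mod_cast hs
  have hP : 5 * s.den ≤ s.num.toNat := by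
    have hden : (0 : ℝ) < s.den := by exact_mod_cast s.den_pos
    have h1 : (5 : ℝ) ≤ (s.num.toNat : ℝ) / (s.den : ℝ) := by rw [hsr]; exact hs5
    rw [le_div_iff₀ hden] at h1
    exact_mod_cast h1
  have hmod := H59.CF.mod_of H59.CF.round
  have hdesc := H59.CF.desc H59.CF.par H59.CF.ser H59.CF.edge (H59.CF.int_of H59.CF.round)
    H59.CF.base s.num.toNat s.den s.den_pos hP
  rw [hsr] at hdesc
  have h1 := hdesc (fun V' E' _ _ _ src' dst' hc => by
    rw [← (hmod V' E' src' dst' s (by linarith)).2, H59.CF.open_iff]
    have hc' : CircularFlow (s : ℝ) src' dst' :=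
      (H59.CF.cflow_iff _ _ _).2 ((hmod V' E' src' dst' s (by linarith)).1.2 hc)
    by_contra hno
    push Not at hno
    exact hcon ⟨V', E', inferInstance, inferInstance, inferInstance, src', dst', hc',
      fun r hr => hno r hr⟩) V E src dst ((H59.CF.bridgeless_iff src dst).2 hbr)
  rw [← (hmod V E src dst s (by linarith)).2, H59.CF.open_iff] at h1
  obtain ⟨r, hr, h2⟩ := h1
  exact h r hr h2

/-- non-values arbitrarily close to `t` from above imply circular `t`-flows -/
theorem gap (t : ℝ) (ht : 5 ≤ t)
    (h : ∀ ε : ℝ, 0 < ε → ∃ s : ℚ, t < s ∧ (s : ℝ) < t + ε ∧ ¬ IsFlowNumber s)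
    (V E : Type) [Fintype V] [DecidableEq V] [Fintype E] (src dst : E → V)
    (hbr : Bridgeless src dst) : CircularFlow t src dst := by
  by_contra h1
  obtain ⟨r, hr, h2⟩ := H59.CF.exists_gt t src dst h1
  obtain ⟨s, hs1, hs2, hs3⟩ := h (r - t) (by linarith)
  refine hs3 (attained s ?_ V E src dst hbr fun r' hr' hc => ?_)
  · have h3 : (5 : ℝ) ≤ (s : ℝ) := by linarith
    exact_mod_cast h3
  · exact h2 (mono (by linarith) hc)

theorem result :
    -- (1) the circular flow numbers from 5 on are an initial segment of the rational numbers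
    (∀ s : ℝ, 5 ≤ s → (IsFlowNumber s ↔ (∃ q : ℚ, (q : ℝ) = s) ∧
      ∃ (V E : Type) (_ : Fintype V) (_ : DecidableEq V) (_ : Fintype E) (src dst : E → V),
        Bridgeless src dst ∧ ∀ r < s, ¬ CircularFlow r src dst)) ∧
    -- (2) circular `t`-flows and gaps above `t`
    (∀ t : ℝ, 5 ≤ t → List.TFAE [
      ∀ (V E : Type) [Fintype V] [DecidableEq V] [Fintype E] (src dst : E → V),
        Bridgeless src dst → CircularFlow t src dst,
      ∀ ε : ℝ, 0 < ε → ∃ s : ℚ, t < s ∧ (s : ℝ) < t + ε ∧ ¬ IsFlowNumber s,
      ∃ ε : ℝ, 0 < ε ∧
        ∀ (V E : Type) [Fintype V] [DecidableEq V] [Fintype E] (src dst : E → V),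
          CircularFlow (t + ε) src dst → CircularFlow t src dst]) ∧
    -- (3) the 5-flow conjecture, for flows and for characteristic polynomials of bond matroids
    List.TFAE [
      ∀ (V E : Type) [Fintype V] [DecidableEq V] [Fintype E] (src dst : E → V),
        Bridgeless src dst → CircularFlow 5 src dst,
      ∀ (V E : Type) [Fintype V] [DecidableEq V] [Fintype E] (src dst : E → V),
        Bridgeless src dst → ∃ f : E → ℤ, IsFlow src dst f ∧ ∀ e, 1 ≤ |f e| ∧ |f e| ≤ 4,
      ∀ (V E : Type) [Fintype V] [DecidableEq V] [Fintype E] [DecidableEq E] (src dst : E → V),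
        Bridgeless src dst → ∀ q : ℕ, 5 ≤ q → bondCharPoly src dst q ≠ 0] := by
  refine ⟨?_, ?_, ?_⟩
  · intro s hs
    constructor
    · rintro ⟨V, E, _, _, _, src, dst, h1, h2⟩
      exact ⟨H59.CF.rational s src dst h1 h2, V, E, inferInstance, inferInstance, inferInstance,
        src, dst, H59.CF.bridgeless_of_cflow s src dst h1, h2⟩
    · rintro ⟨⟨q, rfl⟩, V, E, _, _, _, src, dst, h1, h2⟩
      exact attained q (by exact_mod_cast hs) V E src dst h1 h2
  · intro t ht
    tfae_have 1 → 3 := by
      intro h
      exact ⟨1, one_pos, fun V E _ _ _ src dst hc =>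
        h V E src dst (H59.CF.bridgeless_of_cflow _ src dst hc)⟩
    tfae_have 3 → 2 := by
      rintro ⟨δ, hδ, h⟩ ε hε
      obtain ⟨s, hs1, hs2⟩ := exists_rat_btwn (show t < t + min δ ε by
        have : 0 < min δ ε := lt_min hδ hε
        linarith)
      refine ⟨s, hs1, lt_of_lt_of_le hs2 (by linarith [min_le_right δ ε]), ?_⟩
      rintro ⟨V, E, _, _, _, src, dst, h1, h2⟩
      exact h2 t hs1 (h V E src dst (mono (by linarith [min_le_left δ ε]) h1))
    tfae_have 2 → 1 := by
      intro h V E _ _ _ src dst hbr
      exact gap t ht h V E src dst hbr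
    tfae_finish
  · tfae_have 1 → 2 := by
      intro h V E _ _ _ src dst hbr
      have hc := h V E src dst hbr
      have h4 : (((4 : ℕ) : ℝ) + 1) = 5 := by norm_num
      rw [← h4] at hc
      obtain ⟨F, hF1, hF2⟩ := H59.CF.int_of_cflow H59.CF.round 4 src dst hc
      exact ⟨F, hF1, fun e => by exact_mod_cast hF2 e⟩
    tfae_have 2 → 3 := by
      intro h V E _ _ _ _ src dst hbr q hq
      obtain ⟨f, h1, h2⟩ := h V E src dst hbr
      exact (Pool.Agent.TH362.FP.chr_pos src dst f h2 h1 q hq).ne'
    tfae_have 3 → 1 := by
      intro h V E _ _ _ src dst hbr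
      classical
      have h1 : bondCharPoly src dst ((5 : ℕ) : ℤ) ≠ 0 := h V E src dst hbr 5 le_rfl
      have h2 : bondCharPoly src dst ((5 : ℕ) : ℤ) = _ := Pool.Agent.TH362.FP.chr_eq src dst 5
      rw [h2] at h1
      obtain ⟨φ, hφ, hφ0⟩ : ∃ φ : E → ZMod 5, (∀ e, φ e ≠ 0) ∧
          ∀ v, ∑ e ∈ univ.filter (fun e => src e = v), φ e =
            ∑ e ∈ univ.filter (fun e => dst e = v), φ e := by
        by_contra hno
        apply h1
        rw [Nat.cast_eq_zero]
        have : IsEmpty {φ : E → ZMod 5 // (∀ e, φ e ≠ 0) ∧
          ∀ v, ∑ e ∈ univ.filter (fun e => src e = v), φ e =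
            ∑ e ∈ univ.filter (fun e => dst e = v), φ e} :=
          ⟨fun φ => hno ⟨φ.1, φ.2⟩⟩
        exact Nat.card_of_isEmpty
      have hM : H59.CF.MFlow 5 (Set.Icc 1 (5 - 1)) src dst := by
        refine ⟨fun e => ((φ e).val : ℝ), fun e => ?_, fun v => ?_⟩
        · have h3 : (φ e).val < 5 := ZMod.val_lt _
          have h4 : (φ e).val ≠ 0 := fun h => hφ e ((ZMod.val_eq_zero _).1 h)
          constructor
          · have : 1 ≤ (φ e).val := by omega
            have h5 : (1 : ℝ) ≤ ((φ e).val : ℝ) := by exact_mod_cast this
            exact h5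
          · have : (φ e).val ≤ 4 := by omega
            have h5 : ((φ e).val : ℝ) ≤ 4 := by exact_mod_cast this
            have h6 : ((φ e).val : ℝ) ≤ 5 - 1 := by linarith
            exact h6
        · have h4 : ((∑ e ∈ univ.filter (fun e => src e = v), ((φ e).val : ℤ) -
              ∑ e ∈ univ.filter (fun e => dst e = v), ((φ e).val : ℤ) : ℤ) : ZMod 5) = 0 := by
            push_cast
            simp only [ZMod.natCast_val, ZMod.cast_id', id_eq]
            rw [hφ0 v, sub_self]
          rw [ZMod.intCast_zmod_eq_zero_iff_dvd] at h4
          obtain ⟨k, hk⟩ := h4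
          have h5 : H59.CF.dv src dst (fun e => ((φ e).val : ℝ)) v = (k : ℝ) * 5 := by
            have h6 : H59.CF.dv src dst (fun e => ((φ e).val : ℝ)) v =
                ((∑ e ∈ univ.filter (fun e => src e = v), ((φ e).val : ℤ) -
                  ∑ e ∈ univ.filter (fun e => dst e = v), ((φ e).val : ℤ) : ℤ) : ℝ) := by
              unfold H59.CF.dv
              push_cast
              rw [Finset.sum_filter, Finset.sum_filter, ← Finset.sum_sub_distrib]
              refine Finset.sum_congr rfl fun e _ => ?_
              by_cases h1 : src e = v <;> by_cases h2 : dst e = v <;> simp [h1, h2]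
            rw [h6, hk]
            push_cast
            ring
          rw [h5]
          exact H59.CF.coe_int_mul k
      have hR := ((H59.CF.mod_of H59.CF.round) V E src dst 5 (by norm_num)).1.2 hM
      exact (H59.CF.cflow_iff _ _ _).2 hR
    tfae_finish

end Pool.Agent.Results.MP_c8786f_co.CircularFlowNumbers
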