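import Mathlib
import Pool.Agent.H66.FY.Main

/-!
# Every nowhere-zero flow modulo k lifts to exponentially many integer k-flows (MP_c8786f_co)

Let `g` be a nowhere-zero flow with values in `Z_k` (`k ≥ 2`) on a finite multigraph with `n`
vertices and `m` edges.  Tutte proved that some integer flow `f` with `0 < |f| < k` is congruent to
`g`.  We show that there are at least `(1 + 1/k)^(m - n)` of them, and at least `1.2544^(m - n)` if
`k = 5`.

Proof.  (1) Cubic graphs.  At every vertex the representatives in `{1, …, k-1}` of the outgoing
values sum to `k` (class A) or `2k` (class B).  A lift is a choice, at each vertex, of one (class A)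
or two (class B) darts whose value is reduced by `k`, exactly one of the two darts of each edge
being chosen.  Such choices are perfect matchings of a bipartite multigraph (rows: vertices of
class A and edges between vertices of class B; columns: vertices of class B and edges between
vertices of class A), and `representative / k` is a fractional perfect matching `p`.  By the
inequality of Schrijver and of Gurvits and Samorodnitsky the number of perfect matchings is at
least the product of `p^(-p) (1-p)^(1-p)` over its edges.  This inequality is proved here from the
half-plane property of permanents, which gives the Rayleigh (negative correlation) inequality; one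
column after the other is then expanded.  The factors of the two darts of an edge inside a class
cancel, and what is left is the square root of the product over the vertices of
`∏ p^(-p) (1-p)^(1-p)` over the three darts; each such product is at least `1 + 1/k` by the
inequality between the geometric and the harmonic mean.

(2) All multigraphs.  Two darts at a vertex of degree at least four whose values do not cancel are
split off; if all pairs of darts at the vertex cancel, all values are `k/2` and one averages over
the ways to pair off one dart; vertices of degree two are suppressed and loops are deleted.
-/

set_option autoImplicit false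

namespace Pool.Agent.Results.MP_c8786f_co.ManyIntegerLifts

/-- Kirchhoff's law for functions on the edges with values in `A`. -/
def IsFlow {V E A : Type} [DecidableEq V] [Fintype E] [AddCommMonoid A] (src dst : E → V)
    (f : E → A) : Prop :=
  ∀ v : V, ∑ e ∈ Finset.univ.filter (fun e => src e = v), f e
    = ∑ e ∈ Finset.univ.filter (fun e => dst e = v), f e

/-- The base of the exponential bound. -/
noncomputable def base (k : ℕ) : ℝ := if k = 5 then 1.2544 else 1 + 1 / (k : ℝ)

theorem result :
    ∀ (k : ℕ), 2 ≤ k → ∀ (V E : Type) [Fintype V] [DecidableEq V] [Fintype E] [DecidableEq E]
      (src dst : E → V) (g : E → ZMod k), IsFlow src dst g → (∀ e, g e ≠ 0) →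
      base k ^ (Fintype.card E - Fintype.card V) ≤
        (Nat.card {f : E → ℤ // IsFlow src dst f ∧
          ∀ e, |f e| < k ∧ ((f e : ℤ) : ZMod k) = g e} : ℝ) := by
  intro k hk V E _ _ _ _ src dst g hf hg
  have hk0 : NeZero k := ⟨by omega⟩
  unfold base
  split
  · rename_i h5
    subst h5
    have h1 : (1.2544 : ℝ) = 784 / 625 := by norm_num
    rw [h1]
    exact Pool.Agent.H66.FY.part1 (by norm_num) (by norm_num) Pool.Agent.H66.FY.cub_five hg hf
  · exact Pool.Agent.H66.FY.part1_k hk hg hf

end Pool.Agent.Results.MP_c8786f_co.ManyIntegerLifts
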