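import Mathlib
import Pool.Agent.H66.FY.Main

/-!
# Nowhere-zero integer 5-flows with prescribed signs (MP_c8786f_co)

Let `G` be a finite multigraph with all degrees at least three and let `g` be a nowhere-zero flow
modulo five.  There is a set `S` of at least one seventieth of the edges such that for every subset
`T` of `S` some integer flow `f` with `0 < |f| < 5` and `f ≡ g` is positive on `T` and negative on
`S ∖ T`.

Proof.  By `ManyIntegerLifts` there are at least `1.2544^(m - n) ≥ 1.2544^(m/3)` such flows, and a
lift is determined by the set of its positive edges; now use the Sauer–Shelah lemma (in the form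
of Pajor).
-/

set_option autoImplicit false

namespace Pool.Agent.Results.MP_c8786f_co.PrescribedSigns

/-- Kirchhoff's law for functions on the edges with values in `A`. -/
def IsFlow {V E A : Type} [DecidableEq V] [Fintype E] [AddCommMonoid A] (src dst : E → V)
    (f : E → A) : Prop :=
  ∀ v : V, ∑ e ∈ Finset.univ.filter (fun e => src e = v), f e
    = ∑ e ∈ Finset.univ.filter (fun e => dst e = v), f e

/-- The degree of a vertex; a loop counts twice. -/
def degree {V E : Type} [DecidableEq V] [Fintype E] (src dst : E → V) (v : V) : ℕ :=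
  (Finset.univ.filter (fun e => src e = v)).card + (Finset.univ.filter (fun e => dst e = v)).card

theorem result :
    ∀ (V E : Type) [Fintype V] [DecidableEq V] [Fintype E] [DecidableEq E] (src dst : E → V),
      (∀ v, 3 ≤ degree src dst v) →
      ∀ g : E → ZMod 5, IsFlow src dst g → (∀ e, g e ≠ 0) →
      ∃ S : Finset E, Fintype.card E ≤ 70 * S.card ∧
        ∀ T ⊆ S, ∃ f : E → ℤ, IsFlow src dst f ∧ (∀ e, |f e| ≤ 4 ∧ ((f e : ℤ) : ZMod 5) = g e) ∧
          ∀ e ∈ S, (0 < f e ↔ e ∈ T) := by
  intro V E _ _ _ _ src dst hdeg g hf hg
  exact Pool.Agent.H66.FY.part3 hg hf hdeg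

end Pool.Agent.Results.MP_c8786f_co.PrescribedSigns
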